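import Pool.Agent.H45.NevPub.Bridge

/-!
# The geometric ergodic theorem for singular holomorphic foliations with arbitrary singularities

This answers Q1 of `MP_343136_an` positively. The definitions of forms, currents, foliations and
Nevanlinna currents are in `Pool/Agent/H45/NevPub/Defs.lean`.

Outline. `T` is represented by its trace measure `μ`, which is disintegrated along the plaques of
countably many flow boxes with positive harmonic densities. A quasi-plurisubharmonic defining
function of the singular set gives cutoff functions which show that the singularities have zero
capacity with respect to `T`. The leafwise Laplacian generates a contraction semigroup on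
`L¹(μ)`; solutions of penalised obstacle problems give a maximal inequality for the Nevanlinna
means; extremality of `T` gives ergodicity, and a Schwarz-Pick argument shows that the Nevanlinna
characteristic is unbounded almost everywhere.
-/

open MeasureTheory Set Metric Filter Topology
open scoped Manifold ContDiff
open Pool.Agent.H45.NevPub

namespace Pool.Agent.Results.MP_343136_an.GeometricErgodic

/-- **Main theorem.** Let `M` be a compact complex manifold with a Hermitian metric `κ`, `F` a
singular holomorphic foliation by Riemann surfaces on `M` (no assumption on the singularities), and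
`T` an extremal positive `dd^c`-closed current directed by `F` whose trace measure `μ = T ∧ κ`
gives full mass to the hyperbolic leaves. Then for `μ`-almost every `a`, for each universal
covering `φ` of the leaf through `a` by the unit disc with `φ 0 = a`, the Nevanlinna currents
`τ_r` of `φ` converge to `T` (normalised to mass one) as `r → 1`: for every smooth `(1,1)`-form
`θ`, `⟨τ_r, θ⟩ → T θ / T κ`. -/
theorem result {E : Type*} [NormedAddCommGroup E] [NormedSpace ℂ E] [FiniteDimensional ℂ E]
    {M : Type*} [TopologicalSpace M] [ChartedSpace E M] [IsManifold 𝓘(ℂ, E) ω M]
    [CompactSpace M] [T2Space M] [MeasurableSpace M] [BorelSpace M]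
    (F : Foliation E M) (κ : Form E M) (hκ : κ.IsMetric)
    (T : Form E M → ℂ) (hT : F.IsExtremal T)
    (μ : Measure M) [IsFiniteMeasure μ] (hμ : IsTraceMeasure T κ μ)
    (hhyp : ∀ᵐ a ∂μ, ∃ φ : ℂ → M, F.IsUniversalCovering φ ∧ φ 0 = a) :
    ∀ᵐ a ∂μ, ∀ φ : ℂ → M, F.IsUniversalCovering φ → φ 0 = a → ∀ θ : Form E M,
      Tendsto (fun r => nevCurrent κ φ r θ) (𝓝[<] 1) (𝓝 (T θ / T κ)) :=
  main F κ hκ T hT μ hμ hhyp

end Pool.Agent.Results.MP_343136_an.GeometricErgodic
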